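import Pool.Agent.MP_ed9623_an.H77.SpecX

/-! Balance of angular momentum. -/

open MeasureTheory Filter Topology Set
open scoped ContDiff

namespace Pool.Agent.MP_ed9623_an.H77

open H64

namespace Spin

/-- The matrix of the rotation field. -/
def M : Fin 2 → Fin 2 → ℝ := ![![0, -1], ![1, 0]]

/-- A bounded function with constant derivative. -/
theorem slope_zero {y : ℝ → ℝ} {k B : ℝ} (hy : ∀ t, HasDerivAt y k t) (hB : ∀ t, |y t| ≤ B) :
    k = 0 := by
  have h : ∀ t, HasDerivAt (fun t => y t - k * t) 0 t := fun t => by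
    simpa using (hy t).fun_sub ((hasDerivAt_id' t).const_mul k)
  have e := is_const_of_deriv_eq_zero (fun t => (h t).differentiableAt) fun t => (h t).deriv
  by_contra hk
  have e1 := e ((2 * B + 1) / k) 0
  rw [mul_div_cancel₀ _ hk, mul_zero, sub_zero] at e1
  have a := abs_le.1 (hB ((2 * B + 1) / k))
  have b := abs_le.1 (hB 0)
  linarith [a.2, b.1]

/-- The rotation field, cut off away from `Ω`. -/
theorem exists_rot {Ω : Set P} (hb : Bornology.IsBounded Ω) :
    ∃ (χ : P → ℝ) (ζ : Fin 2 → P → ℝ), Test univ χ ∧ (∀ j, Test univ (ζ j)) ∧ ∀ x ∈ Ω,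
      χ x = 1 ∧ (∀ i, dd (fun _ => 0) i χ x = 0) ∧ ∀ j i, dd (fun _ => 0) i (ζ j) x = M j i := by
  obtain ⟨χ, hχ, -, h1⟩ := exists_cut hb.isCompact_closure isOpen_univ (subset_univ _)
  have k : ∀ x ∈ Ω, χ =ᶠ[𝓝 x] fun _ => 1 := fun x hx =>
    h1.filter_mono (nhds_le_nhdsSet (subset_closure hx))
  have k0 : ∀ x ∈ Ω, ∀ e, pd e χ x = 0 := fun x hx e => by
    rw [pd_congr_pt e (k x hx)]; exact pd_const e x 1
  have k1 : ∀ x ∈ Ω, ∀ l i, pd (ee i) (fun p => Xc 0 l p * χ p) x = if l = i then 1 else 0 :=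
    fun x hx l i => by
      rw [pd_mul _ (sm_diff (sm_Xc 0 l) x) (sm_diff hχ.1 x), k0 x hx, (k x hx).self_of_nhds, pd_Xc]
      ring
  refine ⟨χ, ![fun p => -1 * (Xc 0 1 p * χ p), fun p => Xc 0 0 p * χ p], hχ, fun j => ?_,
    fun x hx => ⟨(k x hx).self_of_nhds, fun i => by rw [dd_zero, k0 x hx], fun j i => ?_⟩⟩
  · fin_cases j
    · exact (hχ.smul (sm_Xc 0 1)).cmul _
    · exact hχ.smul (sm_Xc 0 0)
  · rw [dd_zero]
    fin_cases j
    · refine (pd_const_mul _ _ (sm_diff (hχ.smul (sm_Xc 0 1)).1 x)).trans ?_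
      rw [k1 x hx]
      fin_cases i <;> simp [M]
    · refine (k1 x hx 0 i).trans ?_
      fin_cases i <;> simp [M]

theorem int_on {Ω : Set P} {f φ ψ : P → ℝ} (hf : Van Ωᶜ f) (h : ∀ x ∈ Ω, φ x = ψ x) :
    ∫ x, f x * φ x = ∫ x, f x * ψ x :=
  integral_congr_ae (Eventually.mono hf fun x hx => by
    by_cases hp : x ∈ Ω
    · simp only [h x hp]
    · simp only [hx hp, zero_mul])

/-- For the rotation field only the time derivative contributes to the defect. -/
theorem tx_rot {Ω : Set P} {χ : P → ℝ} {a w z ζ : Fin 2 → P → ℝ}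
    {da dw dz : Fin 2 → Fin 2 → P → ℝ} (h : Fl Ω a da w dw z dz) (hχ : Test univ χ)
    (hx : ∀ x ∈ Ω, χ x = 1 ∧ (∀ i, dd (fun _ => 0) i χ x = 0) ∧
      ∀ j i, dd (fun _ => 0) i (ζ j) x = M j i) : Tx (fun _ => 0) a w dw z ζ = ip z ζ := by
  have e1 : ∀ j i, ∫ x, dw j i x * dd (fun _ => 0) i (ζ j) x = 0 := fun j i => by
    have b := (h.vw.h1 j).w i χ hχ
    rw [int_on (ψ := fun _ => 0) (h.nw j) fun x hp => (hx x hp).2.1 i] at b
    rw [int_on (ψ := fun x => χ x * M j i) (h.ndw j i) fun x hp => by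
      rw [(hx x hp).2.2, (hx x hp).1, one_mul]]
    simp only [mul_zero, integral_zero, zero_eq_neg] at b
    simp only [← mul_assoc]
    rw [integral_mul_const, b, zero_mul]
  have e2 : ∀ l m j i, ∫ x, a l x * w m x * dd (fun _ => 0) i (ζ j) x
      = (∫ x, a l x * w m x) * M j i := fun l m j i => by
    rw [int_on (f := fun x => a l x * w m x) (ψ := fun _ => M j i) ((h.nw m).smul _)
      fun x hp => (hx x hp).2.2 j i, integral_mul_const]
  have e3 : ∀ l m j i, ∫ x, w m x * a l x * dd (fun _ => 0) i (ζ j) x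
      = (∫ x, a l x * w m x) * M j i := fun l m j i => by
    rw [← e2]
    simp only [mul_comm (w m _)]
  simp only [Tx, di, tl, e1, e2, e3, Fin.sum_univ_two]
  simp [M]
  ring

end Spin

open Spin in
theorem rowSpin : OfSpin := by
  intro Ω g R c a w ζ₀ hΩ hb hP hD hc
  obtain ⟨χ, ζ, hχ, hζ, hx⟩ := exists_rot hb
  obtain ⟨l, hl⟩ := exists_ip fun j => (hζ j).m2
  have e : ∫ x in Ω, crl (fun _ => 0) ζ x = volume.real Ω * 2 := by
    rw [setIntegral_congr_fun (g := fun _ => (2 : ℝ)) hΩ.measurableSet fun x hp => by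
      simp only [crl, (hx x hp).2.2]
      simp [M]
      norm_num, setIntegral_const, smul_eq_mul]
  have hy : ∀ t, HasDerivAt (fun t => l (w t)) (c * (volume.real Ω * 2)) t := fun t => by
    have b := hD.2.2 _ _ _ _ _ _ (hP.fl t) ζ hζ
    rw [tx_rot (hP.fl t) hχ hx, e, ← hl] at b
    rw [← hc t, cT, ← b]
    exact l.hasFDerivAt.comp_hasDerivAt t (sm_hasDerivAt hP.sw t)
  have h0 := slope_zero (B := ‖l‖ * R) hy fun t =>
    (l.le_opNorm _).trans (mul_le_mul_of_nonneg_left (hP.nw t) (norm_nonneg _))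
  refine (mul_eq_zero.1 h0).resolve_right fun h1 => ?_
  have h2 : volume Ω = 0 := (measureReal_eq_zero_iff hb.measure_lt_top.ne).1 (by linarith)
  have h3 := hD.2.1
  rw [setIntegral_measure_zero _ h2] at h3
  exact zero_ne_one h3

end Pool.Agent.MP_ed9623_an.H77
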